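import Pool.Agent.Y14.TW.Est
import Pool.Agent.Helper91.BP.Up

/-! # Refined bounds for the tower height -/

set_option autoImplicit false
set_option linter.unusedSectionVars false

namespace Pool.Agent.Y14.TW
open Finset Classical Pool.Agent.Helper91.BP

/-- the growth condition on `r` -/
theorem numeric_r : ∀ᶠ r : ℕ in Filter.atTop,
    100 ≤ r ∧ 36 * (((r : ℝ) + 1) ^ 4) ^ 4 ≤ Real.exp ((r : ℝ) / 8) := by
  have h1 : (fun x : ℝ => x ^ 16) =o[Filter.atTop] fun x => Real.exp (1 / 8 * x) :=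
    isLittleO_pow_exp_pos_mul_atTop 16 (by norm_num)
  have h2 := h1.def (c := 1 / (36 * 2 ^ 16)) (by norm_num)
  have h3 := tendsto_natCast_atTop_atTop (R := ℝ) |>.eventually h2
  filter_upwards [h3, Filter.eventually_ge_atTop 100] with r hr1 hr2
  refine ⟨hr2, ?_⟩
  rw [Real.norm_of_nonneg (by positivity), Real.norm_of_nonneg (Real.exp_pos _).le] at hr1
  have e : Real.exp (1 / 8 * (r : ℝ)) = Real.exp ((r : ℝ) / 8) := by
    congr 1; ring
  rw [e] at hr1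
  have hrR : (100 : ℝ) ≤ r := by exact_mod_cast hr2
  have h4 : ((r : ℝ) + 1) ^ 16 ≤ (2 * (r : ℝ)) ^ 16 :=
    pow_le_pow_left₀ (by linarith) (by linarith) 16
  rw [mul_pow] at h4
  have h5 : (((r : ℝ) + 1) ^ 4) ^ 4 = ((r : ℝ) + 1) ^ 16 := by rw [← pow_mul]
  rw [h5]
  have h6 : (36 * 2 ^ 16 : ℝ) * (r : ℝ) ^ 16 ≤ Real.exp ((r : ℝ) / 8) := by
    calc (36 * 2 ^ 16 : ℝ) * (r : ℝ) ^ 16
        ≤ (36 * 2 ^ 16 : ℝ) * (1 / (36 * 2 ^ 16) * Real.exp ((r : ℝ) / 8)) :=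
          mul_le_mul_of_nonneg_left hr1 (by norm_num)
      _ = _ := by field_simp
  nlinarith

/-- the main numerical facts -/
theorem num_facts {d r : ℕ} (hr : 100 ≤ r) (h36 : 36 * (((r : ℝ) + 1) ^ 4) ^ 4 ≤ Real.exp ((r : ℝ) / 8))
    (hr1 : r ^ 4 ≤ d) (hr2 : d < (r + 1) ^ 4) :
    ((d : ℝ) ^ 4) ^ d * (4 ^ d * Real.exp (-(2 * (r : ℝ) ^ 2)) ^ (r ^ 3)) ≤ 1 / 8 ∧
    ((d : ℝ) ^ 4) ^ d * ((36 * (d : ℝ) ^ 4) ^ d * Real.exp (-(2 * (r : ℝ) ^ 2)) ^ (d + 1)) ≤ 1 / 8 ∧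
    Real.exp (-(2 * (r : ℝ) ^ 2)) ≤ 1 / 8 ∧ (d : ℝ) ≤ 21 / 20 * (r : ℝ) ^ 4 := by
  have hrR : (100 : ℝ) ≤ r := by exact_mod_cast hr
  have hd1 : (r : ℝ) ^ 4 ≤ d := by exact_mod_cast hr1
  have hd2 : (d : ℝ) ≤ ((r : ℝ) + 1) ^ 4 := by exact_mod_cast hr2.le
  have hd3 : ((r : ℝ) + 1) ^ 4 ≤ 21 / 20 * (r : ℝ) ^ 4 := by
    have h1 : (r : ℝ) + 1 ≤ 101 / 100 * r := by linarith
    calc ((r : ℝ) + 1) ^ 4 ≤ (101 / 100 * r) ^ 4 := pow_le_pow_left₀ (by linarith) h1 4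
      _ = (101 / 100) ^ 4 * (r : ℝ) ^ 4 := by rw [mul_pow]
      _ ≤ _ := mul_le_mul_of_nonneg_right (by norm_num) (by positivity)
  have hd0 : (0 : ℝ) ≤ d := Nat.cast_nonneg d
  have hd4 : (d : ℝ) ^ 4 ≤ (((r : ℝ) + 1) ^ 4) ^ 4 := pow_le_pow_left₀ hd0 hd2 4
  have h1d : (1 : ℝ) ≤ (((r : ℝ) + 1) ^ 4) ^ 4 :=
    one_le_pow₀ (one_le_pow₀ (by linarith))
  have hA : (d : ℝ) ^ 4 ≤ Real.exp ((r : ℝ) / 8) := by linarith
  have hC : 36 * (d : ℝ) ^ 4 ≤ Real.exp ((r : ℝ) / 8) := by linarith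
  have hB : (4 : ℝ) ≤ Real.exp ((r : ℝ) / 8) := by linarith
  have hApow : ((d : ℝ) ^ 4) ^ d ≤ Real.exp ((d : ℝ) * ((r : ℝ) / 8)) := by
    rw [Real.exp_nat_mul]
    exact pow_le_pow_left₀ (by positivity) hA d
  have hBpow : (4 : ℝ) ^ d ≤ Real.exp ((d : ℝ) * ((r : ℝ) / 8)) := by
    rw [Real.exp_nat_mul]
    exact pow_le_pow_left₀ (by norm_num) hB d
  have hCpow : (36 * (d : ℝ) ^ 4) ^ d ≤ Real.exp ((d : ℝ) * ((r : ℝ) / 8)) := by
    rw [Real.exp_nat_mul]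
    exact pow_le_pow_left₀ (by positivity) hC d
  have hR1 : Real.exp (-(2 * (r : ℝ) ^ 2)) ^ (r ^ 3) = Real.exp (-(2 * (r : ℝ) ^ 5)) := by
    rw [← Real.exp_nat_mul]
    congr 1
    push_cast
    ring
  have hR2 : Real.exp (-(2 * (r : ℝ) ^ 2)) ^ (d + 1) =
      Real.exp (((d : ℝ) + 1) * (-(2 * (r : ℝ) ^ 2))) := by
    rw [← Real.exp_nat_mul]
    push_cast
    rfl
  have hr5 : (100 : ℝ) ≤ (r : ℝ) ^ 5 := by
    calc (100 : ℝ) ≤ r := hrR
      _ = (r : ℝ) ^ 1 := by ring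
      _ ≤ (r : ℝ) ^ 5 := pow_le_pow_right₀ (by linarith) (by norm_num)
  have hdr : (d : ℝ) * r ≤ 21 / 20 * (r : ℝ) ^ 5 := by
    calc (d : ℝ) * r ≤ (21 / 20 * (r : ℝ) ^ 4) * r :=
          mul_le_mul_of_nonneg_right (hd2.trans hd3) (by linarith)
      _ = _ := by ring
  have hr22 : (r : ℝ) ≤ (r : ℝ) ^ 2 := by nlinarith
  refine ⟨?_, ?_, ?_, hd2.trans hd3⟩
  · rw [hR1]
    calc ((d : ℝ) ^ 4) ^ d * (4 ^ d * Real.exp (-(2 * (r : ℝ) ^ 5)))
        ≤ Real.exp ((d : ℝ) * ((r : ℝ) / 8)) * (Real.exp ((d : ℝ) * ((r : ℝ) / 8)) *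
          Real.exp (-(2 * (r : ℝ) ^ 5))) := by
          apply mul_le_mul hApow _ (by positivity) (Real.exp_pos _).le
          exact mul_le_mul_of_nonneg_right hBpow (Real.exp_pos _).le
      _ = Real.exp ((d : ℝ) * ((r : ℝ) / 8) + ((d : ℝ) * ((r : ℝ) / 8) +
            -(2 * (r : ℝ) ^ 5))) := by
          rw [← Real.exp_add, ← Real.exp_add]
      _ ≤ Real.exp (-3) := by
          apply Real.exp_le_exp.2
          nlinarith
      _ ≤ 1 / 8 := exp_neg_three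
  · rw [hR2]
    calc ((d : ℝ) ^ 4) ^ d * ((36 * (d : ℝ) ^ 4) ^ d * Real.exp (((d : ℝ) + 1) * (-(2 * (r : ℝ) ^ 2))))
        ≤ Real.exp ((d : ℝ) * ((r : ℝ) / 8)) * (Real.exp ((d : ℝ) * ((r : ℝ) / 8)) *
          Real.exp (((d : ℝ) + 1) * (-(2 * (r : ℝ) ^ 2)))) := by
          apply mul_le_mul hApow _ (by positivity) (Real.exp_pos _).le
          exact mul_le_mul_of_nonneg_right hCpow (Real.exp_pos _).le
      _ = Real.exp ((d : ℝ) * ((r : ℝ) / 8) + ((d : ℝ) * ((r : ℝ) / 8) +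
            ((d : ℝ) + 1) * (-(2 * (r : ℝ) ^ 2)))) := by
          rw [← Real.exp_add, ← Real.exp_add]
      _ ≤ Real.exp (-3) := by
          apply Real.exp_le_exp.2
          have h7 := mul_le_mul_of_nonneg_left hr22 hd0
          nlinarith
      _ ≤ 1 / 8 := exp_neg_three
  · calc Real.exp (-(2 * (r : ℝ) ^ 2)) ≤ Real.exp (-3) := by
          apply Real.exp_le_exp.2
          nlinarith
      _ ≤ 1 / 8 := exp_neg_three

/-- the density estimate with the chosen parameters -/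
theorem bd_of {d n r : ℕ} {p : ℝ} (hr : 100 ≤ r) (hr1 : r ^ 4 ≤ d)
    (hdr : (d : ℝ) ≤ 21 / 20 * (r : ℝ) ^ 4) (h0 : 0 ≤ p) (h1 : p ≤ 1 / 4 + 1 / (4 * d)) :
    Bd d n p (Real.exp (-(2 * (r : ℝ) ^ 2))) (d / 2 + 4 * r ^ 3) := by
  have hrR : (100 : ℝ) ≤ r := by exact_mod_cast hr
  have hd1 : (r : ℝ) ^ 4 ≤ d := by exact_mod_cast hr1
  have hr4 : (100 : ℝ) ≤ (r : ℝ) ^ 4 := by
    calc (100 : ℝ) ≤ r := hrR
      _ = (r : ℝ) ^ 1 := by ring
      _ ≤ (r : ℝ) ^ 4 := pow_le_pow_right₀ (by linarith) (by norm_num)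
  have hd0 : (0 : ℝ) < d := by linarith
  have hdinv : 1 / (4 * (d : ℝ)) ≤ 1 / 4 := by
    apply one_div_le_one_div_of_le (by norm_num)
    linarith
  have hp1 : p ≤ 1 := by linarith
  intro Y x0 hY
  have hl0 : (0 : ℝ) ≤ 1 / r := by positivity
  have hl : (1 : ℝ) / r ≤ 1 / 2 := one_div_le_one_div_of_le (by norm_num) (by linarith)
  have h := B0_prob2 h0 hp1 hl0 hl Y x0 hY (d / 2 + 4 * r ^ 3)
  refine h.trans ?_
  rw [← Real.exp_nat_mul]
  apply Real.exp_le_exp.2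
  apply mul_le_mul_of_nonneg_left _ (Nat.cast_nonneg _)
  obtain ⟨l, hld⟩ : ∃ l : ℝ, l = 1 / r := ⟨_, rfl⟩
  rw [← hld] at hl0 hl ⊢
  have hlr : l * r = 1 := by rw [hld]; field_simp
  have ht : (d : ℝ) / 2 - 1 / 2 + 4 * (r : ℝ) ^ 3 ≤ ((d / 2 + 4 * r ^ 3 : ℕ) : ℝ) := by
    have : d ≤ 2 * (d / 2) + 1 := by omega
    have h2 : (d : ℝ) ≤ 2 * ((d / 2 : ℕ) : ℝ) + 1 := by exact_mod_cast this
    push_cast
    linarith
  have hdp : 2 * (d : ℝ) * p ≤ (d : ℝ) / 2 + 1 / 2 := by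
    have h2 : 2 * (d : ℝ) * p ≤ 2 * (d : ℝ) * (1 / 4 + 1 / (4 * d)) :=
      mul_le_mul_of_nonneg_left h1 (by linarith)
    have h3 : 2 * (d : ℝ) * (1 / 4 + 1 / (4 * d)) = (d : ℝ) / 2 + 1 / 2 := by
      field_simp
      ring
    linarith
  have hld3 : l * d ≤ 21 / 20 * (r : ℝ) ^ 3 := by
    calc l * d ≤ l * (21 / 20 * (r : ℝ) ^ 4) := mul_le_mul_of_nonneg_left hdr hl0
      _ = 21 / 20 * (r : ℝ) ^ 3 * (l * r) := by ring
      _ = _ := by rw [hlr, mul_one]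
  have hr3 : (100 : ℝ) ≤ (r : ℝ) ^ 3 := by
    calc (100 : ℝ) ≤ r := hrR
      _ = (r : ℝ) ^ 1 := by ring
      _ ≤ (r : ℝ) ^ 3 := pow_le_pow_right₀ (by linarith) (by norm_num)
  have hkap : 0 ≤ l + 2 * l ^ 2 := by positivity
  calc l - l * ((d / 2 + 4 * r ^ 3 : ℕ) : ℝ) + 2 * (d : ℝ) * (p * (l + 2 * l ^ 2))
      = l - l * ((d / 2 + 4 * r ^ 3 : ℕ) : ℝ) + (2 * (d : ℝ) * p) * (l + 2 * l ^ 2) := by ring
    _ ≤ l - l * ((d : ℝ) / 2 - 1 / 2 + 4 * (r : ℝ) ^ 3) +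
        ((d : ℝ) / 2 + 1 / 2) * (l + 2 * l ^ 2) := by
        have e1 := mul_le_mul_of_nonneg_left ht hl0
        have e2 := mul_le_mul_of_nonneg_right hdp hkap
        linarith
    _ = l * (2 + l * d + l - 4 * (r : ℝ) ^ 3) := by ring
    _ ≤ l * (-(2 * (r : ℝ) ^ 3)) := by
        apply mul_le_mul_of_nonneg_left _ hl0
        linarith
    _ = -(2 * (r : ℝ) ^ 2) * (l * r) := by ring
    _ = _ := by rw [hlr, mul_one]

theorem exists_root (d : ℕ) : ∃ r : ℕ, r ^ 4 ≤ d ∧ d < (r + 1) ^ 4 := by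
  refine ⟨Nat.sqrt (Nat.sqrt d), ?_, ?_⟩
  · have h1 := Nat.sqrt_le' d
    have h2 := Nat.sqrt_le' (Nat.sqrt d)
    calc Nat.sqrt (Nat.sqrt d) ^ 4 = (Nat.sqrt (Nat.sqrt d) ^ 2) ^ 2 := by ring
      _ ≤ (Nat.sqrt d) ^ 2 := Nat.pow_le_pow_left h2 2
      _ ≤ d := h1
  · have h1 := Nat.lt_succ_sqrt' d
    have h2 := Nat.lt_succ_sqrt' (Nat.sqrt d)
    simp only [Nat.succ_eq_add_one] at h1 h2
    calc d < (Nat.sqrt d + 1) ^ 2 := h1
      _ ≤ ((Nat.sqrt (Nat.sqrt d) + 1) ^ 2) ^ 2 := Nat.pow_le_pow_left h2 2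
      _ = _ := by ring

/-- no percolation at scales below the tower of height about `d / 2` -/
theorem lower2 : ∃ d0 : ℕ, ∀ d, d0 ≤ d → 1 ≤ d ∧ ∃ N : ℕ,
    (d : ℝ) / 2 - 5 * (d : ℝ) ^ (3 / 4 : ℝ) ≤ N ∧
    ∀ n, 1 ≤ n → n ≤ T N → ∀ p : ℝ, 0 ≤ p →
    p ≤ 1 / 4 + 1 / (4 * d) → Pr p (fun A : Finset (Grid d n) => Percolates d A) < 1 / 2 := by
  obtain ⟨R0, hR0⟩ := Filter.eventually_atTop.1 numeric_r
  refine ⟨max 1 (max R0 100 ^ 4), ?_⟩
  intro d hd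
  have hd1 : 1 ≤ d := le_trans (le_max_left _ _) hd
  have hdR : max R0 100 ^ 4 ≤ d := le_trans (le_max_right _ _) hd
  refine ⟨hd1, ?_⟩
  obtain ⟨r, hr1, hr2⟩ := exists_root d
  have hrR : max R0 100 ≤ r := by
    by_contra hcon
    push Not at hcon
    have : (r + 1) ^ 4 ≤ max R0 100 ^ 4 := Nat.pow_le_pow_left hcon 4
    omega
  have hr100 : 100 ≤ r := le_trans (le_max_right _ _) hrR
  obtain ⟨-, h36⟩ := hR0 r (le_trans (le_max_left _ _) hrR)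
  obtain ⟨N1, N2, N3, hdr⟩ := num_facts hr100 h36 hr1 hr2
  have hr3 : 100 * r ^ 3 ≤ r ^ 4 := by
    rw [pow_succ r 3, mul_comm]
    exact Nat.mul_le_mul_left _ hr100
  have hr3' : 1 ≤ r ^ 3 := Nat.one_le_pow _ _ (by omega)
  obtain ⟨c, hc⟩ : ∃ c, c = r ^ 3 := ⟨_, rfl⟩
  rw [← hc] at hr3 hr3'
  refine ⟨d - (d / 2 + 4 * c) - c, ?_, ?_⟩
  · have h1 : d ≤ 2 * (d - (d / 2 + 4 * c) - c) + 10 * c := by omega
    have h2 : (d : ℝ) ≤ 2 * ((d - (d / 2 + 4 * c) - c : ℕ) : ℝ) + 10 * (c : ℝ) := by exact_mod_cast h1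
    have h3 : (c : ℝ) ≤ (d : ℝ) ^ (3 / 4 : ℝ) := by
      rw [hc]
      push_cast
      have h4 : (r : ℝ) ^ 4 ≤ d := by exact_mod_cast hr1
      have h5 : (r : ℝ) ≤ (d : ℝ) ^ (1 / 4 : ℝ) := by
        have h6 : (r : ℝ) = ((r : ℝ) ^ 4) ^ (1 / 4 : ℝ) := by
          rw [← Real.rpow_natCast, ← Real.rpow_mul (Nat.cast_nonneg r)]
          norm_num
        rw [h6]
        exact Real.rpow_le_rpow (by positivity) h4 (by norm_num)
      calc (r : ℝ) ^ 3 ≤ ((d : ℝ) ^ (1 / 4 : ℝ)) ^ 3 := pow_le_pow_left₀ (Nat.cast_nonneg r) h5 3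
        _ = (d : ℝ) ^ (3 / 4 : ℝ) := by
            rw [← Real.rpow_natCast, ← Real.rpow_mul (Nat.cast_nonneg d)]
            norm_num
    linarith
  · intro n hn hnT p h0 h1
    have hd1R : (1 : ℝ) ≤ d := by exact_mod_cast hd1
    have hd100 : 100 ≤ d := by omega
    have hd100R : (100 : ℝ) ≤ d := by exact_mod_cast hd100
    have hdinv : 1 / (4 * (d : ℝ)) ≤ 1 / 400 := by
      apply one_div_le_one_div_of_le (by norm_num)
      linarith
    have hp1 : p ≤ 1 := by linarith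
    rcases Nat.lt_or_ge n 2 with hn2 | hn2
    · have hn1 : n = 1 := by omega
      subst hn1
      set x0 : Grid d 1 := fun _ => 0 with hx0
      have hle : Pr p (fun A : Finset (Grid d 1) => Percolates d A) ≤
          Pr p (fun A : Finset (Grid d 1) => ({x0} : Finset (Grid d 1)) ⊆ A) := by
        apply Pr_mono h0 hp1
        intro A hA
        have hcl : cl (Finset.univ : Finset (Grid d 1)) d A ⊆ A := by
          apply cl_min
          · intro y _ h; exact h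
          · intro y _ hc
            exfalso
            have : nbrs y = ∅ := by
              apply Finset.eq_empty_of_forall_notMem
              intro z hz
              obtain ⟨e, he, _⟩ := mem_nbrs.1 hz
              have a1 := (y e).2
              have a2 := (z e).2
              omega
            rw [this, Finset.empty_inter, Finset.card_empty] at hc
            omega
        rw [(perc_iff d A).1 hA] at hcl
        exact Finset.singleton_subset_iff.2 (hcl (Finset.mem_univ _))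
      rw [Pr_subset, Finset.card_singleton, pow_one] at hle
      linarith
    · have HB := bd_of (n := n) hr100 hr1 hdr h0 h1
      rw [← hc] at HB N1
      have hd1024 : 1024 ≤ d := by
        have : 100 ^ 3 ≤ c := by rw [hc]; exact Nat.pow_le_pow_left hr100 3
        omega
      have hbase := claim_base2 (n := n) (s0 := c) hd1024 hn2 h0 hp1 (Real.exp_pos _).le HB
        (by omega) N1 N2 N3
      have hall : ∀ i, i ≤ d - (d / 2 + 4 * c) - c →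
          Claim d n p (d / 2 + 4 * c) c i := by
        intro i
        induction i with
        | zero => intro _; exact hbase
        | succ i ih =>
          intro hi
          exact claim_step (by omega) hn2 h0 hp1 (by omega) (ih (by omega))
      obtain ⟨y, w, hT, _, _, _, _, hperc⟩ := hall (d - (d / 2 + 4 * c) - c) le_rfl
      apply hperc
      have e1 : T (d - (d / 2 + 4 * c) - c) ≤ T (d - (d / 2 + 4 * c) - c + 3) := T_mono (by omega)
      have e2 : y ≤ y ^ 4 := Nat.le_self_pow (by norm_num) y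
      omega

/-- the scales of the upper bound, with a sharp tower height -/
theorem sc_le2 {d m : ℕ} (hd : 1 ≤ d) (hm : 8 * d ≤ T m) (k : ℕ) :
    8 * d * sc d k ≤ T (m + k) := by
  induction k with
  | zero =>
    show 8 * d * 1 ≤ T (m + 0)
    simpa using hm
  | succ k ih =>
    show 8 * d * 2 ^ (4 * d * sc d k) ≤ 2 ^ T (m + k)
    have h1 : 8 * d ≤ 2 ^ (4 * d) := by
      have : ∀ e : ℕ, 1 ≤ e → 8 * e ≤ 2 ^ (4 * e) := by
        intro e he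
        induction e, he using Nat.le_induction with
        | base => norm_num
        | succ e he ih =>
          rw [show 4 * (e + 1) = 4 * e + 4 by ring, pow_add]
          omega
      exact this d hd
    have h2 : 2 ^ (4 * d) ≤ 2 ^ (4 * d * sc d k) :=
      Nat.pow_le_pow_right (by norm_num) (by have := sc_pos d k; nlinarith)
    calc 8 * d * 2 ^ (4 * d * sc d k) ≤ 2 ^ (4 * d * sc d k) * 2 ^ (4 * d * sc d k) :=
          Nat.mul_le_mul_right _ (h1.trans h2)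
      _ = 2 ^ (8 * d * sc d k) := by rw [← pow_add]; congr 1; ring
      _ ≤ 2 ^ T (m + k) := Nat.pow_le_pow_right (by norm_num) ih

end Pool.Agent.Y14.TW
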