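import Pool.Agent.Helper91.BP.Low

/-! # Refined lower bound for the tower height: estimates with general parameters

Adapted from `Pool.Agent.Helper91.BP` (Deg, Chain, Low), with a free exponential parameter. -/

set_option autoImplicit false
set_option linter.unusedSectionVars false

namespace Pool.Agent.Y14.TW
open Finset Classical Pool.Agent.Helper91.BP

variable {d n : ℕ}

theorem factor_le2 {p lam : ℝ} (h0 : 0 ≤ p) (hl0 : 0 ≤ lam) (hl : lam ≤ 1 / 2) {m : ℕ}
    (hm : m ≤ 2) : p * Real.exp (lam * (m : ℝ)) + (1 - p) * 1 ≤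
      Real.exp (p * (lam + 2 * lam ^ 2) * (m : ℝ)) := by
  have he : Real.exp (lam * (m : ℝ)) - 1 ≤ (lam + 2 * lam ^ 2) * (m : ℝ) := by
    interval_cases m
    · simp
    · have h := Real.abs_exp_sub_one_sub_id_le (x := lam) (by rw [abs_of_nonneg hl0]; linarith)
      have h2 := (abs_le.1 h).2
      norm_num
      nlinarith
    · have h := Real.abs_exp_sub_one_sub_id_le (x := lam * 2)
        (by rw [abs_of_nonneg (by linarith)]; linarith)
      have h2 := (abs_le.1 h).2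
      norm_num
      nlinarith
  have h2 := Real.add_one_le_exp (p * (lam + 2 * lam ^ 2) * (m : ℝ))
  have h3 := mul_le_mul_of_nonneg_left he h0
  linarith

theorem B0_prob2 {p lam : ℝ} (h0 : 0 ≤ p) (hp1 : p ≤ 1) (hl0 : 0 ≤ lam) (hl : lam ≤ 1 / 2) (Y : Finset (Grid d n)) (x0 : Grid d n)
    (hY : ∀ z, z ≠ x0 → (nbrs z ∩ Y).card ≤ 2) (t : ℕ) :
    Pr p (fun A => Y ⊆ B0 t A) ≤
      Real.exp ((Y.card : ℝ) * (lam - lam * (t : ℝ) + 2 * (d : ℝ) * (p * (lam + 2 * lam ^ 2)))) := by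
  obtain ⟨κ, hκ⟩ : ∃ κ : ℝ, κ = p * (lam + 2 * lam ^ 2) := ⟨_, rfl⟩
  have hκ0 : 0 ≤ κ := by rw [hκ]; positivity
  rw [← hκ]
  have step1 := Pr_le_sum h0 hp1 (fun A : Finset (Grid d n) => Y ⊆ B0 t A)
    (fun A => Real.exp (-(lam * ((t : ℝ) * Y.card))) *
      ((∏ z ∈ A, Real.exp (lam * ((nbrs z ∩ Y).card : ℝ))) * (∏ z ∈ Aᶜ, (1 : ℝ))))
    (by
      intro A
      apply mul_nonneg (Real.exp_pos _).le
      apply mul_nonneg
      · exact Finset.prod_nonneg (fun _ _ => (Real.exp_pos _).le)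
      · exact Finset.prod_nonneg (fun _ _ => zero_le_one))
    (by
      intro A hA
      rw [Finset.prod_const_one, mul_one, ← Real.exp_sum, ← Real.exp_add]
      apply Real.one_le_exp
      have hs : (t : ℝ) * Y.card ≤ ∑ z ∈ A, ((nbrs z ∩ Y).card : ℝ) := by
        rw [← Nat.cast_sum, ← double_count]
        have : t * Y.card ≤ ∑ y ∈ Y, (nbrs y ∩ A).card := by
          rw [mul_comm, ← smul_eq_mul, ← Finset.sum_const]
          apply Finset.sum_le_sum
          intro y hy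
          exact mem_B0.1 (hA hy)
        exact_mod_cast this
      rw [← Finset.mul_sum]
      have := mul_le_mul_of_nonneg_left hs hl0
      linarith)
  refine le_trans step1 ?_
  have hrew : ∀ A : Finset (Grid d n), wt p A * (Real.exp (-(lam * ((t : ℝ) * Y.card))) *
      ((∏ z ∈ A, Real.exp (lam * ((nbrs z ∩ Y).card : ℝ))) * (∏ z ∈ Aᶜ, (1 : ℝ))))
      = Real.exp (-(lam * ((t : ℝ) * Y.card))) * (wt p A *
      ((∏ z ∈ A, Real.exp (lam * ((nbrs z ∩ Y).card : ℝ))) * (∏ z ∈ Aᶜ, (1 : ℝ)))) := by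
    intro A; ring
  simp_rw [hrew]
  rw [← Finset.mul_sum, sum_prod p (fun z => Real.exp (lam * ((nbrs z ∩ Y).card : ℝ))) (fun _ => 1)]
  have hfac : ∀ z : Grid d n, p * Real.exp (lam * ((nbrs z ∩ Y).card : ℝ)) + (1 - p) * 1 ≤
      Real.exp (κ * ((nbrs z ∩ Y).card : ℝ)) *
        (if z = x0 then Real.exp (lam * (Y.card : ℝ)) else 1) := by
    intro z
    by_cases hz : z = x0
    · rw [if_pos hz]
      have hc : ((nbrs z ∩ Y).card : ℝ) ≤ (Y.card : ℝ) := by
        exact_mod_cast Finset.card_le_card Finset.inter_subset_right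
      have hc0 : (0 : ℝ) ≤ ((nbrs z ∩ Y).card : ℝ) := Nat.cast_nonneg _
      have e1 : Real.exp (lam * ((nbrs z ∩ Y).card : ℝ)) ≤ Real.exp (lam * (Y.card : ℝ)) :=
        Real.exp_le_exp.2 (mul_le_mul_of_nonneg_left hc hl0)
      have e2 : 1 ≤ Real.exp (κ * ((nbrs z ∩ Y).card : ℝ)) :=
        Real.one_le_exp (by positivity)
      have e3 : 1 ≤ Real.exp (lam * (Y.card : ℝ)) := Real.one_le_exp (by positivity)
      have e4 : p * Real.exp (lam * ((nbrs z ∩ Y).card : ℝ)) + (1 - p) * 1 ≤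
          Real.exp (lam * (Y.card : ℝ)) := by
        nlinarith
      calc _ ≤ Real.exp (lam * (Y.card : ℝ)) := e4
        _ = 1 * Real.exp (lam * (Y.card : ℝ)) := by ring
        _ ≤ _ := mul_le_mul_of_nonneg_right e2 (Real.exp_pos _).le
    · rw [if_neg hz]
      have := factor_le2 h0 hl0 hl (hY z hz)
      rw [← hκ] at this
      linarith
  have hprod : ∏ z : Grid d n, (p * Real.exp (lam * ((nbrs z ∩ Y).card : ℝ)) + (1 - p) * 1) ≤
      ∏ z : Grid d n, (Real.exp (κ * ((nbrs z ∩ Y).card : ℝ)) *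
        (if z = x0 then Real.exp (lam * (Y.card : ℝ)) else 1)) := by
    apply Finset.prod_le_prod
    · intro z _
      have := Real.exp_pos (lam * ((nbrs z ∩ Y).card : ℝ))
      have h2 : 0 ≤ 1 - p := by linarith
      positivity
    · intro z _
      exact hfac z
  have hsum : ∑ z : Grid d n, ((nbrs z ∩ Y).card : ℝ) ≤ 2 * (d : ℝ) * (Y.card : ℝ) := by
    rw [← Nat.cast_sum, ← double_count]
    have : ∑ y ∈ Y, (nbrs y ∩ Finset.univ).card ≤ 2 * d * Y.card := by
      rw [mul_comm, ← smul_eq_mul, ← Finset.sum_const]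
      apply Finset.sum_le_sum
      intro y _
      rw [Finset.inter_univ]
      exact card_nbrs_le y
    exact_mod_cast this
  calc Real.exp (-(lam * ((t : ℝ) * Y.card))) *
        ∏ z : Grid d n, (p * Real.exp (lam * ((nbrs z ∩ Y).card : ℝ)) + (1 - p) * 1)
      ≤ Real.exp (-(lam * ((t : ℝ) * Y.card))) *
        ∏ z : Grid d n, (Real.exp (κ * ((nbrs z ∩ Y).card : ℝ)) *
        (if z = x0 then Real.exp (lam * (Y.card : ℝ)) else 1)) :=
        mul_le_mul_of_nonneg_left hprod (Real.exp_pos _).le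
    _ = Real.exp (-(lam * ((t : ℝ) * Y.card))) *
        (Real.exp (κ * ∑ z : Grid d n, ((nbrs z ∩ Y).card : ℝ)) *
          Real.exp (lam * (Y.card : ℝ))) := by
        rw [Finset.prod_mul_distrib, Finset.prod_ite_eq', if_pos (Finset.mem_univ _),
          ← Real.exp_sum, Finset.mul_sum]
    _ = Real.exp (-(lam * ((t : ℝ) * Y.card)) + (κ * ∑ z : Grid d n, ((nbrs z ∩ Y).card : ℝ) +
          lam * (Y.card : ℝ))) := by
        rw [Real.exp_add, Real.exp_add]
    _ ≤ _ := by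
        apply Real.exp_le_exp.2
        have := mul_le_mul_of_nonneg_left hsum hκ0
        nlinarith

/-- every family of sites of small overlap is dense with probability at most `ρ` to the number of
its members -/
def Bd (d n : ℕ) (p ρ : ℝ) (t : ℕ) : Prop :=
  ∀ (Y : Finset (Grid d n)) (x0 : Grid d n), (∀ z, z ≠ x0 → (nbrs z ∩ Y).card ≤ 2) →
    Pr p (fun A => Y ⊆ B0 t A) ≤ ρ ^ Y.card

/-- many dense neighbours are unlikely -/
theorem many_prob2 {p ρ : ℝ} {t : ℕ} (h0 : 0 ≤ p) (hp1 : p ≤ 1) (hρ : 0 ≤ ρ) (HB : Bd d n p ρ t) (L : Finset (Grid d n)) (s : ℕ) :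
    Pr p (fun A => ∃ x ∈ L, s ≤ (nbrs x ∩ B0 t A).card) ≤
      (L.card : ℝ) * (4 ^ d * ρ ^ s) := by
  refine le_trans (Pr_bUnion_le h0 hp1 L (fun x A => s ≤ (nbrs x ∩ B0 t A).card)) ?_
  rw [← nsmul_eq_mul, ← Finset.sum_const]
  apply Finset.sum_le_sum
  intro x _
  have hsub : Pr p (fun A => s ≤ (nbrs x ∩ B0 t A).card) ≤
      Pr p (fun A => ∃ Y ∈ (nbrs x).powersetCard s, Y ⊆ B0 t A) := by
    apply Pr_mono h0 hp1
    intro A hA
    obtain ⟨Y, hY1, hY2⟩ := Finset.exists_subset_card_eq hA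
    refine ⟨Y, ?_, Finset.Subset.trans hY1 Finset.inter_subset_right⟩
    rw [Finset.mem_powersetCard]
    exact ⟨Finset.Subset.trans hY1 Finset.inter_subset_left, hY2⟩
  refine le_trans hsub ?_
  refine le_trans (Pr_bUnion_le h0 hp1 _ (fun Y A => Y ⊆ B0 t A)) ?_
  have hcard : ((nbrs x).powersetCard s).card ≤ 4 ^ d := by
    calc ((nbrs x).powersetCard s).card ≤ ((nbrs x).powerset).card := by
          apply Finset.card_le_card
          intro Y hY
          rw [Finset.mem_powersetCard] at hY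
          exact Finset.mem_powerset.2 hY.1
      _ = 2 ^ (nbrs x).card := Finset.card_powerset _
      _ ≤ 2 ^ (2 * d) := Nat.pow_le_pow_right (by norm_num) (card_nbrs_le x)
      _ = 4 ^ d := by rw [pow_mul]; norm_num
  calc ∑ Y ∈ (nbrs x).powersetCard s, Pr p (fun A => Y ⊆ B0 t A)
      ≤ ∑ Y ∈ (nbrs x).powersetCard s, ρ ^ s := by
        apply Finset.sum_le_sum
        intro Y hY
        rw [Finset.mem_powersetCard] at hY
        have := HB Y x (by
          intro z hz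
          refine le_trans (Finset.card_le_card ?_) (common_le hz)
          exact Finset.inter_subset_inter (Finset.Subset.refl _) hY.1)
        rw [hY.2] at this
        exact this
    _ = (((nbrs x).powersetCard s).card : ℝ) * ρ ^ s := by
        rw [Finset.sum_const, nsmul_eq_mul]
    _ ≤ _ := by
        apply mul_le_mul_of_nonneg_right _ (pow_nonneg hρ _)
        exact_mod_cast hcard

/-- long chains are unlikely -/
theorem chain_prob2 {p ρ : ℝ} {t : ℕ} (h0 : 0 ≤ p) (hp1 : p ≤ 1) (hρ : 0 ≤ ρ) (HB : Bd d n p ρ t) (hd : 1 ≤ d)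
    (L : Finset (Grid d n)) (k : ℕ) :
    Pr p (fun A => ∃ q ∈ chains L k, q.2 ⊆ B0 t A ∧ Sep k q.2) ≤
      (L.card : ℝ) * ((36 * d ^ 4) ^ k * ρ ^ (k + 1)) := by
  refine le_trans (Pr_bUnion_le h0 hp1 _
    (fun (q : Grid d n × Finset (Grid d n)) A => q.2 ⊆ B0 t A ∧ Sep k q.2)) ?_
  calc ∑ q ∈ chains L k, Pr p (fun A => q.2 ⊆ B0 t A ∧ Sep k q.2)
      ≤ ∑ q ∈ chains L k, ρ ^ (k + 1) := by
        apply Finset.sum_le_sum
        intro q _
        by_cases hs : Sep k q.2
        · have h2 : Pr p (fun A => q.2 ⊆ B0 t A ∧ Sep k q.2) ≤ Pr p (fun A => q.2 ⊆ B0 t A) :=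
            Pr_mono h0 hp1 (fun A h => h.1)
          refine le_trans h2 ?_
          have := HB q.2 q.1 (fun z _ => le_trans (hs.2 z) (by norm_num))
          rw [hs.1] at this
          exact this
        · rw [Pr_false p (fun A h => hs h.2)]
          exact pow_nonneg hρ _
    _ = ((chains L k).card : ℝ) * ρ ^ (k + 1) := by
        rw [Finset.sum_const, nsmul_eq_mul]
    _ ≤ ((L.card * (36 * d ^ 4) ^ k : ℕ) : ℝ) * ρ ^ (k + 1) := by
        apply mul_le_mul_of_nonneg_right _ (pow_nonneg hρ _)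
        exact_mod_cast card_chains hd L k
    _ = _ := by push_cast; ring

/-- base estimate -/
theorem base_prob2 {p ρ : ℝ} {t : ℕ} (h0 : 0 ≤ p) (hp1 : p ≤ 1) (hρ : 0 ≤ ρ) (HB : Bd d n p ρ t) (hd : 1 ≤ d)
    (L : Finset (Grid d n)) (s k : ℕ) (hk : 1 ≤ k) :
    Pr p (fun A => Ext (cl L s (B0 t A)) (4 * k)) ≤
      (L.card : ℝ) * (4 ^ d * ρ ^ s) +
      (L.card : ℝ) * ((36 * d ^ 4) ^ k * ρ ^ (k + 1)) := by
  have hsub : Pr p (fun A => Ext (cl L s (B0 t A)) (4 * k)) ≤
      Pr p (fun A => (∃ x ∈ L, s ≤ (nbrs x ∩ B0 t A).card) ∨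
        (∃ q ∈ chains L k, q.2 ⊆ B0 t A ∧ Sep k q.2)) := by
    apply Pr_mono h0 hp1
    intro A hA
    by_cases hx : ∃ x ∈ L, s ≤ (nbrs x ∩ B0 t A).card
    · exact Or.inl hx
    · right
      have hcl : cl L s (B0 t A) ⊆ B0 t A ∩ L := by
        apply cl_min
        · intro y hy hyB
          exact Finset.mem_inter.2 ⟨hyB, hy⟩
        · intro y hy hc
          exfalso
          apply hx
          refine ⟨y, hy, le_trans hc (Finset.card_le_card ?_)⟩
          exact Finset.inter_subset_inter (Finset.Subset.refl _) Finset.inter_subset_left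
      obtain ⟨q, hq1, hq2, hq3⟩ := ext_chain hk (hA.mono hcl)
      exact ⟨q, chains_mono Finset.inter_subset_right k hq1,
        Finset.Subset.trans hq2 Finset.inter_subset_left, hq3⟩
  refine le_trans hsub (le_trans (Pr_or_le h0 hp1 _ _) ?_)
  exact add_le_add (many_prob2 h0 hp1 hρ HB L s) (chain_prob2 h0 hp1 hρ HB hd L k)

theorem claim_base2 {d n : ℕ} {p ρ : ℝ} {t s0 : ℕ} (hd : 1024 ≤ d) (hn : 2 ≤ n) (h0 : 0 ≤ p)
    (hp1 : p ≤ 1) (hρ : 0 ≤ ρ) (HB : Bd d n p ρ t) (hst : s0 + t ≤ d)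
    (N1 : ((d : ℝ) ^ 4) ^ d * (4 ^ d * ρ ^ s0) ≤ 1 / 8)
    (N2 : ((d : ℝ) ^ 4) ^ d * ((36 * (d : ℝ) ^ 4) ^ d * ρ ^ (d + 1)) ≤ 1 / 8)
    (N3 : ρ ≤ 1 / 8) : Claim d n p t s0 0 := by
  have hcardR : ∀ L : Finset (Grid d n), Small (d ^ 4) L → (L.card : ℝ) ≤ ((d : ℝ) ^ 4) ^ d := by
    intro L hL
    exact_mod_cast hL.card
  refine ⟨d, 4 * d, ?_, le_refl d, by omega, by nlinarith, ?_, ?_⟩
  · show 64 * T 3 ≤ d
    rw [T_three]; omega
  · intro L hL
    have hb := base_prob2 h0 hp1 hρ HB (by omega) L s0 d (by omega)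
    have hc := hcardR L hL
    have e1 : (L.card : ℝ) * (4 ^ d * ρ ^ s0) ≤ 1 / 8 :=
      le_trans (mul_le_mul_of_nonneg_right hc (by positivity)) N1
    have e2 : (L.card : ℝ) * ((36 * (d : ℝ) ^ 4) ^ d * ρ ^ (d + 1)) ≤ 1 / 8 :=
      le_trans (mul_le_mul_of_nonneg_right hc (by positivity)) N2
    rw [Nat.add_zero]
    linarith
  · intro hn4
    have hx0 : 0 < n := by omega
    set x0 : Grid d n := fun _ => ⟨0, hx0⟩ with hx0d
    have hle : Pr p (fun A : Finset (Grid d n) => Percolates d A) ≤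
        Pr p (fun A => (∃ x ∈ (Finset.univ : Finset (Grid d n)), s0 ≤ (nbrs x ∩ B0 t A).card) ∨
          ({x0} : Finset (Grid d n)) ⊆ B0 t A) := by
      apply Pr_mono h0 hp1
      intro A hA
      by_cases hx : ∃ x ∈ (Finset.univ : Finset (Grid d n)), s0 ≤ (nbrs x ∩ B0 t A).card
      · exact Or.inl hx
      · right
        have hcl : cl Finset.univ s0 (B0 t A) ⊆ B0 t A := by
          apply cl_min
          · intro y _ hyB
            exact hyB
          · intro y hy hc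
            exact absurd ⟨y, hy, hc⟩ hx
        rw [perc_B0 hn hst hA] at hcl
        exact Finset.singleton_subset_iff.2 (hcl (Finset.mem_univ _))
    have hs : Small (d ^ 4) (Finset.univ : Finset (Grid d n)) := by
      intro x _ z _ e
      have := (x e).2
      omega
    have hm := many_prob2 h0 hp1 hρ HB (Finset.univ : Finset (Grid d n)) s0
    have hc := hcardR Finset.univ hs
    have e1 : ((Finset.univ : Finset (Grid d n)).card : ℝ) * (4 ^ d * ρ ^ s0) ≤ 1 / 8 :=
      le_trans (mul_le_mul_of_nonneg_right hc (by positivity)) N1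
    have e2 : Pr p (fun A => ({x0} : Finset (Grid d n)) ⊆ B0 t A) ≤ 1 / 8 := by
      have := HB ({x0} : Finset (Grid d n)) x0 (by
        intro z _
        refine le_trans (Finset.card_le_card Finset.inter_subset_right) ?_
        simp)
      rw [Finset.card_singleton, pow_one] at this
      linarith
    have e3 := Pr_or_le h0 hp1
      (fun A => ∃ x ∈ (Finset.univ : Finset (Grid d n)), s0 ≤ (nbrs x ∩ B0 t A).card)
      (fun A => ({x0} : Finset (Grid d n)) ⊆ B0 t A)
    linarith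

end Pool.Agent.Y14.TW
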